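import Mathlib
import Pool.Agent.H139R3.MF.Top
import Pool.Agent.R838.KS.Stm

set_option autoImplicit false

/-! # Project KS, package ZD -/

namespace Pool.Agent.U770.KS

open Set TopologicalSpace Topology

universe u v

theorem step' {X : Type u} {H : Type v} [t0 : TopologicalSpace X] [p0 : PolishSpace X]
    [MeasurableSpace X] [b0 : BorelSpace X] (g : ℕ → X → X) (hg : ∀ n, Measurable (g n))
    [TopologicalSpace H] [SecondCountableTopology H] [MeasurableSpace H] [OpensMeasurableSpace H]
    (h : X → H) (hh : Measurable h) (t : TopologicalSpace X) (ht : t ≤ t0)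
    (hp : @PolishSpace X t) :
    ∃ t' : TopologicalSpace X, t' ≤ t ∧ @PolishSpace X t' ∧ (∀ n, @Continuous X X t' t (g n)) ∧
      @Continuous X H t' _ h ∧
      ∀ U : Set X, IsOpen[t] U → ∃ W : Set (Set X), (∀ V ∈ W, @IsClopen X t' V) ∧ ⋃₀ W = U := by
  have hb : @BorelSpace X t _ := by
    constructor
    rw [b0.measurable_eq]
    exact (MeasureTheory.borel_eq_borel_of_le hp p0 ht).symm
  obtain ⟨b, hbc, hbb⟩ : ∃ b : Set (Set X), b.Countable ∧ @IsTopologicalBasis X t b := by
    let := t
    have := hp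
    obtain ⟨b, h1, -, h3⟩ := exists_countable_basis X
    exact ⟨b, h1, h3⟩
  have hbo : ∀ V ∈ b, IsOpen[t] V := fun V hV => hbb.isOpen hV
  have hbm : ∀ V ∈ b, MeasurableSet V := by
    intro V hV
    have h1 := hbo V hV
    let := t
    have := hb
    exact h1.measurableSet
  have : Countable b := hbc
  classical
  let χ : X → (b → Bool) := fun x V => decide (x ∈ V.1)
  have hχ : Measurable χ := by
    refine measurable_pi_lambda _ fun V => ?_
    refine measurable_to_bool ?_
    have : ((fun x => χ x V) ⁻¹' {true}) = V.1 := by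
      ext x; simp [χ]
    rw [this]
    exact hbm V.1 V.2
  obtain ⟨t', h1, h2, h3, h4⟩ := H139R3.MF.step (t0 := t0) (p0 := p0) (b0 := b0) g hg
    (fun x => (h x, χ x)) (hh.prodMk hχ) t ht hp
  refine ⟨t', h1, h2, h3, ?_, ?_⟩
  · exact @Continuous.comp X (H × (b → Bool)) H t' _ _ _ _ continuous_fst h4
  · intro U hU
    have h5 : ∀ V ∈ b, @IsClopen X t' V := by
      intro V hV
      have e1 : @Continuous X Bool t' _ (fun x => χ x ⟨V, hV⟩) :=
        @Continuous.comp X (H × (b → Bool)) Bool t' _ _ _ (fun p => p.2 ⟨V, hV⟩)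
          ((continuous_apply _).comp continuous_snd) h4
      have e2 : V = (fun x => χ x ⟨V, hV⟩) ⁻¹' {true} := by
        ext x; simp [χ]
      rw [e2]
      exact @IsClopen.preimage X Bool t' _ _ (isClopen_discrete _) _ e1
    obtain ⟨W, hW1, hW2⟩ := @IsTopologicalBasis.open_eq_sUnion X t b hbb U hU
    exact ⟨W, fun V hV => h5 V (hW1 hV), hW2.symm⟩

/-- A Polish topology can be refined to a Polish topology with a basis of clopen sets for which
countably many Borel self maps and one Borel map to a second countable space are continuous. -/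
theorem exists_topology' {X : Type u} {H : Type v} [t0 : TopologicalSpace X] [p0 : PolishSpace X]
    [MeasurableSpace X] [b0 : BorelSpace X] (g : ℕ → X → X) (hg : ∀ n, Measurable (g n))
    [TopologicalSpace H] [SecondCountableTopology H] [MeasurableSpace H] [OpensMeasurableSpace H]
    (h : X → H) (hh : Measurable h) :
    ∃ t : TopologicalSpace X, t ≤ t0 ∧ @PolishSpace X t ∧ @BorelSpace X t _ ∧
      (∀ n, @Continuous X X t t (g n)) ∧ @Continuous X H t _ h ∧
      ∀ U : Set X, IsOpen[t] U → ∀ x ∈ U, ∃ V : Set X, @IsClopen X t V ∧ x ∈ V ∧ V ⊆ U := by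
  choose F hF1 hF2 hF3 hF4 hF5 using @step' X H t0 p0 _ b0 g hg _ _ _ _ h hh
  let T : ℕ → {t : TopologicalSpace X // t ≤ t0 ∧ @PolishSpace X t} := fun n =>
    Nat.rec ⟨t0, le_rfl, p0⟩ (fun _ s => ⟨F s.1 s.2.1 s.2.2, (hF1 _ _ _).trans s.2.1,
      hF2 _ _ _⟩) n
  have T0 : (T 0).1 = t0 := rfl
  have TS : ∀ n, (T (n + 1)).1 = F (T n).1 (T n).2.1 (T n).2.2 := fun n => rfl
  have hle : (⨅ n, (T n).1) ≤ t0 := iInf_le_of_le 0 le_rfl
  have hp : @PolishSpace X (⨅ n, (T n).1) := by
    refine PolishSpace.iInf ⟨0, fun i => (T i).2.1⟩ (fun i => (T i).2.2)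
  refine ⟨⨅ n, (T n).1, hle, hp, ?_, ?_, ?_, ?_⟩
  · refine @BorelSpace.mk X (⨅ n, (T n).1) _ ?_
    exact b0.measurable_eq.trans (MeasureTheory.borel_eq_borel_of_le hp p0 hle).symm
  · intro n
    rw [continuous_iInf_rng]
    intro k
    have e1 : @Continuous X X (T (k + 1)).1 (T k).1 (g n) := by
      rw [TS]
      exact hF3 _ _ _ n
    exact continuous_iInf_dom (i := k + 1) e1
  · have e1 : @Continuous X H (T (0 + 1)).1 _ h := by
      rw [TS]
      exact hF4 _ _ _
    exact continuous_iInf_dom (i := 0 + 1) e1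
  · set t : TopologicalSpace X := ⨅ n, (T n).1 with htdef
    let C : Set (Set X) := {V | @IsClopen X t V}
    have hC1 : t ≤ generateFrom C := by
      rw [le_generateFrom_iff_subset_isOpen]
      intro V hV
      exact hV.isOpen
    have hC2 : generateFrom C ≤ t := by
      rw [htdef]
      refine le_iInf fun n => ?_
      intro U hU
      obtain ⟨W, hW1, hW2⟩ := hF5 _ (T n).2.1 (T n).2.2 U hU
      have hW3 : ∀ V ∈ W, V ∈ C := by
        intro V hV
        have h1 : @IsClopen X (T (n + 1)).1 V := hW1 V hV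
        have h2 : t ≤ (T (n + 1)).1 := iInf_le _ (n + 1)
        constructor
        · rw [← @isOpen_compl_iff X V t]
          exact h2 _ (@IsClosed.isOpen_compl X (T (n+1)).1 V h1.1)
        · exact h2 _ h1.2
      rw [← hW2]
      exact @isOpen_sUnion X (generateFrom C) W fun V hV => isOpen_generateFrom_of_mem (hW3 V hV)
    have hC : t = generateFrom C := le_antisymm hC1 hC2
    intro U hU x hx
    have hbas := @isTopologicalBasis_of_subbasis X t C hC
    obtain ⟨V, hV, hxV, hVU⟩ := @IsTopologicalBasis.exists_subset_of_mem_open X t _ hbas x U hx hU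
    obtain ⟨f, ⟨hf1, hf2⟩, rfl⟩ := hV
    refine ⟨⋂₀ f, ?_, hxV, hVU⟩
    constructor
    · exact @isClosed_sInter X t f fun V hV => (hf2 hV).1
    · exact @Set.Finite.isOpen_sInter X t f hf1 fun V hV => (hf2 hV).2

/-- A Polish space with a basis of clopen sets has a closed embedding in the Baire space. -/
theorem exists_closed_embedding {X : Type u} [TopologicalSpace X] [PolishSpace X]
    (hz : ∀ U : Set X, IsOpen U → ∀ x ∈ U, ∃ V : Set X, IsClopen V ∧ x ∈ V ∧ V ⊆ U) :
    ∃ q : X → ℕ → ℕ, IsClosedEmbedding q := by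
  rcases isEmpty_or_nonempty X with hX | hX
  · exact ⟨fun x => (hX.false x).elim, .of_continuous_injective_isClosedMap
      (continuous_of_const fun x => (hX.false x).elim) (fun x => (hX.false x).elim)
      (fun A _ => by rw [Set.eq_empty_of_isEmpty A, image_empty]; exact isClosed_empty)⟩
  let := upgradeIsCompletelyMetrizable X
  have h1 : ∀ l : ℕ, ∃ V : ℕ → Set X, (∀ n, IsClopen (V n)) ∧ (⋃ n, V n = univ) ∧
      ∀ n, ∀ x ∈ V n, ∀ y ∈ V n, dist x y < 2 * (1 / 2 : ℝ) ^ l := by
    intro l
    have hpos : (0 : ℝ) < (1 / 2 : ℝ) ^ l := by positivity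
    choose f hf1 hf2 hf3 using fun x : X => hz (Metric.ball x ((1 / 2 : ℝ) ^ l))
      Metric.isOpen_ball x (Metric.mem_ball_self hpos)
    obtain ⟨s, hs1, hs2⟩ := countable_cover_nhds (f := f) fun x =>
      (hf1 x).isOpen.mem_nhds (hf2 x)
    have hsn : s.Nonempty := by
      by_contra hne
      rw [not_nonempty_iff_eq_empty] at hne
      obtain ⟨x⟩ := hX
      have : x ∈ ⋃ x ∈ s, f x := by rw [hs2]; trivial
      simp [hne] at this
    obtain ⟨e, he⟩ := hs1.exists_eq_range hsn
    refine ⟨fun n => f (e n), fun n => hf1 _, ?_, ?_⟩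
    · rw [← hs2, he, biUnion_range]
    · intro n x hx y hy
      have := hf3 _ hx
      have := hf3 _ hy
      have h3 : dist x (e n) < (1 / 2 : ℝ) ^ l := hf3 _ hx
      have h4 : dist y (e n) < (1 / 2 : ℝ) ^ l := hf3 _ hy
      have h5 := dist_triangle_right x y (e n)
      linarith
  choose V hV1 hV2 hV3 using h1
  have hex : ∀ l x, ∃ n, x ∈ V l n := by
    intro l x
    have : x ∈ ⋃ n, V l n := by rw [hV2]; trivial
    simpa using this
  classical
  let q : X → ℕ → ℕ := fun x l => Nat.find (hex l x)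
  have hq1 : ∀ x l, x ∈ V l (q x l) := fun x l => Nat.find_spec (hex l x)
  have hq2 : Continuous q := by
    refine continuous_pi fun l => ?_
    refine continuous_discrete_rng.2 fun n => ?_
    have : (fun x => q x l) ⁻¹' {n} = V l n ∩ ⋂ m ∈ Finset.range n, (V l m)ᶜ := by
      ext x
      simp only [mem_preimage, mem_singleton_iff, mem_inter_iff, mem_iInter, Finset.mem_range,
        mem_compl_iff, q]
      rw [Nat.find_eq_iff]
    rw [this]
    refine (hV1 l n).isOpen.inter ?_
    exact isOpen_biInter_finset fun m _ => (hV1 l m).compl.isOpen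
  have hq3 : ∀ x y l, q x l = q y l → dist x y < 2 * (1 / 2 : ℝ) ^ l := by
    intro x y l hxy
    refine hV3 l (q x l) x (hq1 x l) y ?_
    rw [hxy]
    exact hq1 y l
  have hlim : Filter.Tendsto (fun l : ℕ => 2 * (1 / 2 : ℝ) ^ l) Filter.atTop (𝓝 0) := by
    have := (tendsto_pow_atTop_nhds_zero_of_lt_one (r := (1 / 2 : ℝ)) (by norm_num)
      (by norm_num)).const_mul 2
    simpa using this
  have hinj : Function.Injective q := by
    intro x y hxy
    have h0 : dist x y ≤ 0 := by
      refine ge_of_tendsto' hlim fun l => ?_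
      exact (hq3 x y l (by rw [hxy])).le
    exact dist_le_zero.1 h0
  refine ⟨q, .of_continuous_injective_isClosedMap hq2 hinj ?_⟩
  intro A hA
  refine isClosed_of_closure_subset fun y hy => ?_
  rw [mem_closure_iff_seq_limit] at hy
  obtain ⟨z, hz1, hz2⟩ := hy
  choose x hx1 hx2 using hz1
  have hev : ∀ l, ∃ N, ∀ n, N ≤ n → q (x n) l = y l := by
    intro l
    have h3 : Filter.Tendsto (fun n => z n l) Filter.atTop (𝓝 (y l)) :=
      ((continuous_apply l).tendsto y).comp hz2
    rw [nhds_discrete, Filter.tendsto_pure, Filter.eventually_atTop] at h3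
    obtain ⟨N, hN⟩ := h3
    exact ⟨N, fun n hn => by rw [hx2]; exact hN n hn⟩
  have hc : CauchySeq x := by
    rw [Metric.cauchySeq_iff]
    intro ε hε
    obtain ⟨l, hl⟩ := ((tendsto_order.1 hlim).2 ε hε).exists
    obtain ⟨N, hN⟩ := hev l
    refine ⟨N, fun m hm n hn => ?_⟩
    exact (hq3 _ _ l (by rw [hN m hm, hN n hn])).trans hl
  obtain ⟨a, ha⟩ := cauchySeq_tendsto_of_complete hc
  refine ⟨a, hA.mem_of_tendsto ha (Filter.Eventually.of_forall hx1), ?_⟩
  have h4 : Filter.Tendsto (fun n => q (x n)) Filter.atTop (𝓝 (q a)) :=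
    (hq2.tendsto a).comp ha
  simp only [hx2] at h4
  exact tendsto_nhds_unique h4 hz2

theorem t_ZD : Pool.Agent.R838.KS.S_ZD := by
  intro X _ _ s hs h hh
  let := upgradeStandardBorel X
  obtain ⟨t, -, h2, h3, h4, h5, h6⟩ := exists_topology' s hs h hh
  have h7 : ∃ q : X → ℕ → ℕ, @IsClosedEmbedding X (ℕ → ℕ) t _ q := by
    exact @exists_closed_embedding X t h2 h6
  obtain ⟨q, hq⟩ := h7
  refine ⟨t, q, h4, h5, ?_, hq⟩
  let := t
  have := h3
  exact hq.continuous.measurable

end Pool.Agent.U770.KS
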